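import Mathlib

set_option autoImplicit false
set_option linter.all false

/-! Polynomial functions on a compact group with values in `ZMod p`: left and right differences. -/

namespace Pool.Agent.Q229.GS

variable (p : ℕ) (G : Type) [Group G]

/-- left translation -/
def lt (h : G) : (G → ZMod p) →ₗ[ZMod p] (G → ZMod p) where
  toFun f := fun x => f (h * x)
  map_add' _ _ := rfl
  map_smul' _ _ := rfl

/-- right translation -/
def rt (h : G) : (G → ZMod p) →ₗ[ZMod p] (G → ZMod p) where
  toFun f := fun x => f (x * h)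
  map_add' _ _ := rfl
  map_smul' _ _ := rfl

/-- left difference -/
def dl (h : G) : (G → ZMod p) →ₗ[ZMod p] (G → ZMod p) := lt p G h - LinearMap.id

/-- right difference -/
def dr (h : G) : (G → ZMod p) →ₗ[ZMod p] (G → ZMod p) := rt p G h - LinearMap.id

@[simp] theorem lt_apply (h : G) (f : G → ZMod p) (x : G) : lt p G h f x = f (h * x) := rfl
@[simp] theorem rt_apply (h : G) (f : G → ZMod p) (x : G) : rt p G h f x = f (x * h) := rfl
@[simp] theorem dl_apply (h : G) (f : G → ZMod p) (x : G) : dl p G h f x = f (h * x) - f x := rfl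
@[simp] theorem dr_apply (h : G) (f : G → ZMod p) (x : G) : dr p G h f x = f (x * h) - f x := rfl

theorem dl_rt (g h : G) (f : G → ZMod p) : dl p G g (rt p G h f) = rt p G h (dl p G g f) := by
  funext x; simp [mul_assoc]

theorem dl_dr (g h : G) (f : G → ZMod p) : dl p G g (dr p G h f) = dr p G h (dl p G g f) := by
  funext x; simp [mul_assoc]; ring

theorem rt_mul (g h : G) (f : G → ZMod p) : rt p G (g * h) f = rt p G g (rt p G h f) := by
  funext x; simp [mul_assoc]

theorem dl_mul (g h : G) (f : G → ZMod p) :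
    dl p G (g * h) f = lt p G h (dl p G g f) + dl p G h f := by
  funext x; simp [mul_assoc]

theorem dr_mul (g h : G) (f : G → ZMod p) :
    dr p G (g * h) f = rt p G g (dr p G h f) + dr p G g f := by
  funext x; simp [mul_assoc]

theorem lt_eq (h : G) (f : G → ZMod p) : lt p G h f = dl p G h f + f := by
  funext x; simp

theorem rt_eq (h : G) (f : G → ZMod p) : rt p G h f = dr p G h f + f := by
  funext x; simp

variable [TopologicalSpace G] [IsTopologicalGroup G]

/-- locally constant functions -/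
def LC : Submodule (ZMod p) (G → ZMod p) where
  carrier := {f | IsLocallyConstant f}
  zero_mem' := IsLocallyConstant.const 0
  add_mem' := fun ha hb => ha.add hb
  smul_mem' := fun c f hf => by
    have : IsLocallyConstant ((fun y : ZMod p => c * y) ∘ f) := hf.comp _
    exact this

theorem mem_LC {f : G → ZMod p} : f ∈ LC p G ↔ IsLocallyConstant f := Iff.rfl

theorem lt_LC (h : G) {f : G → ZMod p} (hf : f ∈ LC p G) : lt p G h f ∈ LC p G := by
  rw [mem_LC] at *
  exact hf.comp_continuous (continuous_const.mul continuous_id)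

theorem rt_LC (h : G) {f : G → ZMod p} (hf : f ∈ LC p G) : rt p G h f ∈ LC p G := by
  rw [mem_LC] at *
  exact hf.comp_continuous (continuous_id.mul continuous_const)

theorem dl_LC (h : G) {f : G → ZMod p} (hf : f ∈ LC p G) : dl p G h f ∈ LC p G :=
  (LC p G).sub_mem (lt_LC p G h hf) hf

theorem dr_LC (h : G) {f : G → ZMod p} (hf : f ∈ LC p G) : dr p G h f ∈ LC p G :=
  (LC p G).sub_mem (rt_LC p G h hf) hf

/-- locally constant functions killed by all `k`-fold left differences -/
def P : ℕ → Submodule (ZMod p) (G → ZMod p)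
  | 0 => ⊥
  | (k + 1) => LC p G ⊓ ⨅ g : G, (P k).comap (dl p G g)

/-- the same with right differences -/
def P' : ℕ → Submodule (ZMod p) (G → ZMod p)
  | 0 => ⊥
  | (k + 1) => LC p G ⊓ ⨅ g : G, (P' k).comap (dr p G g)

theorem mem_P_succ {k : ℕ} {f : G → ZMod p} :
    f ∈ P p G (k + 1) ↔ f ∈ LC p G ∧ ∀ g, dl p G g f ∈ P p G k := by
  simp [P]

theorem mem_P'_succ {k : ℕ} {f : G → ZMod p} :
    f ∈ P' p G (k + 1) ↔ f ∈ LC p G ∧ ∀ g, dr p G g f ∈ P' p G k := by
  simp [P']

theorem mem_P_zero {f : G → ZMod p} : f ∈ P p G 0 ↔ f = 0 := by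
  simp [P]

theorem mem_P'_zero {f : G → ZMod p} : f ∈ P' p G 0 ↔ f = 0 := by
  simp [P']

theorem P_LC {k : ℕ} {f : G → ZMod p} (hf : f ∈ P p G k) : f ∈ LC p G := by
  cases k with
  | zero => rw [mem_P_zero] at hf; subst hf; exact (LC p G).zero_mem
  | succ k => exact ((mem_P_succ p G).1 hf).1

theorem P_mono_succ (k : ℕ) : P p G k ≤ P p G (k + 1) := by
  induction k with
  | zero => intro f hf; rw [mem_P_zero] at hf; subst hf; exact zero_mem _
  | succ k ih =>
    intro f hf
    rw [mem_P_succ] at hf ⊢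
    exact ⟨hf.1, fun g => ih (hf.2 g)⟩

theorem P_mono {k l : ℕ} (h : k ≤ l) : P p G k ≤ P p G l :=
  monotone_nat_of_le_succ (P_mono_succ p G) h

theorem rt_P {k : ℕ} (h : G) {f : G → ZMod p} (hf : f ∈ P p G k) : rt p G h f ∈ P p G k := by
  induction k generalizing f with
  | zero => rw [mem_P_zero] at hf ⊢; subst hf; simp
  | succ k ih =>
    rw [mem_P_succ] at hf ⊢
    exact ⟨rt_LC p G h hf.1, fun g => by rw [dl_rt]; exact ih (hf.2 g)⟩

theorem lt_P {k : ℕ} (h : G) {f : G → ZMod p} (hf : f ∈ P p G k) : lt p G h f ∈ P p G k := by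
  rw [lt_eq]
  cases k with
  | zero => rw [mem_P_zero] at hf; subst hf; simp
  | succ k =>
    exact (P p G (k + 1)).add_mem (P_mono_succ p G k (((mem_P_succ p G).1 hf).2 h)) hf

theorem P_one_iff {f : G → ZMod p} : f ∈ P p G 1 ↔ ∃ c, f = fun _ => c := by
  rw [mem_P_succ]
  constructor
  · rintro ⟨-, h⟩
    refine ⟨f 1, ?_⟩
    funext x
    have := congrFun ((mem_P_zero p G).1 (h x)) 1
    simp only [dl_apply, mul_one, Pi.zero_apply] at this
    exact sub_eq_zero.1 this
  · rintro ⟨c, rfl⟩
    refine ⟨IsLocallyConstant.const c, fun g => ?_⟩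
    rw [mem_P_zero]; funext x; simp

/-- right differences lower the degree -/
theorem dr_P {k : ℕ} (h : G) {f : G → ZMod p} (hf : f ∈ P p G (k + 1)) : dr p G h f ∈ P p G k := by
  induction k generalizing f with
  | zero =>
    obtain ⟨c, rfl⟩ := (P_one_iff p G).1 hf
    rw [mem_P_zero]; funext x; simp
  | succ k ih =>
    rw [mem_P_succ] at hf ⊢
    exact ⟨dr_LC p G h hf.1, fun g => by rw [dl_dr]; exact ih (hf.2 g)⟩

theorem P'_one_iff {f : G → ZMod p} : f ∈ P' p G 1 ↔ ∃ c, f = fun _ => c := by
  rw [mem_P'_succ]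
  constructor
  · rintro ⟨-, h⟩
    refine ⟨f 1, ?_⟩
    funext x
    have := congrFun ((mem_P'_zero p G).1 (h x)) 1
    simp only [dr_apply, one_mul, Pi.zero_apply] at this
    exact sub_eq_zero.1 this
  · rintro ⟨c, rfl⟩
    refine ⟨IsLocallyConstant.const c, fun g => ?_⟩
    rw [mem_P'_zero]; funext x; simp

theorem dl_P' {k : ℕ} (h : G) {f : G → ZMod p} (hf : f ∈ P' p G (k + 1)) : dl p G h f ∈ P' p G k := by
  induction k generalizing f with
  | zero =>
    obtain ⟨c, rfl⟩ := (P'_one_iff p G).1 hf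
    rw [mem_P'_zero]; funext x; simp
  | succ k ih =>
    rw [mem_P'_succ] at hf ⊢
    exact ⟨dl_LC p G h hf.1, fun g => by rw [← dl_dr]; exact ih (hf.2 g)⟩

theorem P'_le_P (k : ℕ) : P' p G k ≤ P p G k := by
  induction k with
  | zero => exact le_refl _
  | succ k ih =>
    intro f hf
    rw [mem_P_succ]
    exact ⟨((mem_P'_succ p G).1 hf).1, fun g => ih (dl_P' p G g hf)⟩

variable [CompactSpace G]

/-- two-sided periods of a function -/
def per (f : G → ZMod p) : Subgroup G where
  carrier := {n | ∀ x y : G, f (x * n * y) = f (x * y)}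
  one_mem' := by intro x y; simp
  mul_mem' := by
    intro a b ha hb x y
    have h1 := ha x (b * y)
    have h2 := hb x y
    simp only [mul_assoc] at *
    rw [h1, h2]
  inv_mem' := by
    intro a ha x y
    have := ha (x * a⁻¹) y
    rw [inv_mul_cancel_right] at this
    rw [← this]

theorem per_normal (f : G → ZMod p) : (per p G f).Normal := by
  constructor
  intro n hn g x y
  have := hn (x * g) (g⁻¹ * y)
  simp only [mul_assoc, mul_inv_cancel_left] at this ⊢
  exact this

theorem per_open {f : G → ZMod p} (hf : f ∈ LC p G) : IsOpen (per p G f : Set G) := by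
  rw [mem_LC] at hf
  let W : Set ((G × G) × G) := {q | f (q.1.1 * q.2 * q.1.2) = f (q.1.1 * q.1.2)}
  have hW : IsOpen W := by
    have h1 : IsLocallyConstant (fun q : (G × G) × G => f (q.1.1 * q.2 * q.1.2)) :=
      hf.comp_continuous (by fun_prop)
    have h2 : IsLocallyConstant (fun q : (G × G) × G => f (q.1.1 * q.1.2)) :=
      hf.comp_continuous (by fun_prop)
    have h3 : IsLocallyConstant (fun q : (G × G) × G => f (q.1.1 * q.2 * q.1.2) - f (q.1.1 * q.1.2)) :=
      h1.sub h2
    have h4 := h3.isOpen_fiber 0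
    convert h4 using 1
    ext q
    exact sub_eq_zero.symm
  obtain ⟨u, v, hu, hv, hu1, hv1, huv⟩ := generalized_tube_lemma
    (isCompact_univ : IsCompact (Set.univ : Set (G × G))) (isCompact_singleton (x := (1 : G)))
    (n := W) hW (by
      rintro ⟨⟨x, y⟩, n⟩ ⟨-, hn⟩
      rw [Set.mem_singleton_iff] at hn
      show f (x * n * y) = f (x * y)
      rw [show n = 1 from hn, mul_one])
  refine Subgroup.isOpen_of_mem_nhds (per p G f) (g := 1) ?_
  refine Filter.mem_of_superset (hv.mem_nhds (hv1 (Set.mem_singleton 1))) ?_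
  intro n hn x y
  exact huv (show ((x, y), n) ∈ u ×ˢ v from ⟨hu1 (Set.mem_univ _), hn⟩)

theorem rt_per {f : G → ZMod p} {n : G} (hn : n ∈ per p G f) : rt p G n f = f := by
  funext x
  have := hn x 1
  simpa using this

theorem lt_per {f : G → ZMod p} {n : G} (hn : n ∈ per p G f) : lt p G n f = f := by
  funext x
  have := hn 1 x
  simpa using this
end Pool.Agent.Q229.GS
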