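import Pool.Agent.Q229.GS.A

set_option autoImplicit false
set_option linter.all false

/-! The Golod-Shafarevich recursion for the dimensions of the spaces of polynomial functions. -/

namespace Pool.Agent.Q229.GS

variable (p : ℕ) (G : Type) [Group G] [TopologicalSpace G]

/-- continuous homomorphisms to `ZMod p` -/
def H1 : Submodule (ZMod p) (G → ZMod p) where
  carrier := {χ | IsLocallyConstant χ ∧ ∀ x y, χ (x * y) = χ x + χ y}
  zero_mem' := ⟨IsLocallyConstant.const 0, fun x y => by simp⟩
  add_mem' := fun ha hb => ⟨ha.1.add hb.1, fun x y => by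
    simp only [Pi.add_apply, ha.2 x y, hb.2 x y]; ring⟩
  smul_mem' := fun c f hf => ⟨(hf.1.comp (fun y : ZMod p => c * y)), fun x y => by
    simp only [Pi.smul_apply, hf.2 x y, smul_add]⟩

/-- continuous 2-cocycles -/
def Z2 : Submodule (ZMod p) (G × G → ZMod p) where
  carrier := {c | IsLocallyConstant c ∧
    ∀ x y z, c (y, z) - c (x * y, z) + c (x, y * z) - c (x, y) = 0}
  zero_mem' := ⟨IsLocallyConstant.const 0, fun x y z => by simp⟩
  add_mem' := fun {a b} ha hb => ⟨ha.1.add hb.1, fun x y z => by
    have h1 := ha.2 x y z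
    have h2 := hb.2 x y z
    simp only [Pi.add_apply]
    linear_combination h1 + h2⟩
  smul_mem' := fun c f hf => ⟨(hf.1.comp (fun y : ZMod p => c * y)), fun x y z => by
    have h1 := hf.2 x y z
    simp only [Pi.smul_apply, smul_eq_mul]
    linear_combination c * h1⟩

/-- continuous 2-coboundaries -/
def B2 : Submodule (ZMod p) (G × G → ZMod p) where
  carrier := {c | ∃ b : G → ZMod p, IsLocallyConstant b ∧
    ∀ x y, c (x, y) = b x + b y - b (x * y)}
  zero_mem' := ⟨0, IsLocallyConstant.const 0, fun x y => by simp⟩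
  add_mem' := by
    rintro a b ⟨u, hu, hu'⟩ ⟨v, hv, hv'⟩
    refine ⟨u + v, hu.add hv, fun x y => ?_⟩
    simp only [Pi.add_apply, hu', hv']; ring
  smul_mem' := by
    rintro c a ⟨u, hu, hu'⟩
    refine ⟨c • u, hu.comp (fun y : ZMod p => c * y), fun x y => ?_⟩
    simp only [Pi.smul_apply, hu', smul_eq_mul]; ring

/-- second continuous cohomology -/
abbrev H2 : Type := (Z2 p G) ⧸ (B2 p G).comap (Z2 p G).subtype

variable [IsTopologicalGroup G] [CompactSpace G]

/-- functions invariant under an open subgroup are locally constant -/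
theorem LC_of_inv {Y : Type} (f : G → Y) (N : Subgroup G) (hN : IsOpen (N : Set G))
    (h : ∀ x, ∀ n ∈ N, f (x * n) = f x) : IsLocallyConstant f := by
  rw [IsLocallyConstant.iff_exists_open]
  intro x
  refine ⟨(fun y => x⁻¹ * y) ⁻¹' (N : Set G), hN.preimage (continuous_const.mul continuous_id), ?_, ?_⟩
  · show x⁻¹ * x ∈ N
    simp
  · intro y hy
    have := h x (x⁻¹ * y) hy
    rwa [mul_inv_cancel_left] at this

section gen
variable {d : ℕ} (g : Fin d → G)
  (hg : Dense ((Subgroup.closure (Set.range g) : Subgroup G) : Set G))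

/-- the stabilizer of a property of differences -/
def Sg (k : ℕ) (f : G → ZMod p) : Subgroup G where
  carrier := {h | dl p G h f ∈ P p G k}
  one_mem' := by
    show dl p G 1 f ∈ P p G k
    have : dl p G 1 f = 0 := by funext x; simp
    rw [this]; exact zero_mem _
  mul_mem' := by
    intro a b ha hb
    show dl p G (a * b) f ∈ P p G k
    rw [dl_mul]
    exact add_mem (lt_P p G b ha) hb
  inv_mem' := by
    intro a ha
    show dl p G a⁻¹ f ∈ P p G k
    have : dl p G a⁻¹ f = - lt p G a⁻¹ (dl p G a f) := by funext x; simp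
    rw [this]
    exact neg_mem (lt_P p G a⁻¹ ha)

include hg in
theorem mem_P_gen {k : ℕ} {f : G → ZMod p} (hf : f ∈ LC p G)
    (h : ∀ i, dl p G (g i) f ∈ P p G k) : f ∈ P p G (k + 1) := by
  rw [mem_P_succ]
  refine ⟨hf, ?_⟩
  have hle : per p G f ≤ Sg p G k f := by
    intro n hn
    show dl p G n f ∈ P p G k
    have : dl p G n f = 0 := by
      funext x
      have := congrFun (lt_per p G hn) x
      simp only [lt_apply] at this
      simp [this]
    rw [this]; exact zero_mem _
  have hopen : IsOpen (Sg p G k f : Set G) := Subgroup.isOpen_mono hle (per_open p G hf)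
  have hcl : IsClosed (Sg p G k f : Set G) := Subgroup.isClosed_of_isOpen _ hopen
  have h1 : Subgroup.closure (Set.range g) ≤ Sg p G k f := by
    rw [Subgroup.closure_le]
    rintro _ ⟨i, rfl⟩
    exact h i
  intro x
  have h2 : x ∈ closure ((Subgroup.closure (Set.range g) : Subgroup G) : Set G) := hg x
  exact (hcl.closure_subset_iff.2 (fun y hy => h1 hy)) h2

/-- differences with respect to the generators -/
def T (k : ℕ) : P p G (k + 1) →ₗ[ZMod p] (Fin d → P p G k) :=
  LinearMap.pi fun i => (dl p G (g i)).restrict (p := P p G (k + 1)) (q := P p G k)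
    (fun f hf => ((mem_P_succ p G).1 hf).2 (g i))

theorem T_apply (k : ℕ) (f : P p G (k + 1)) (i : Fin d) :
    ((T p G g k f i : P p G k) : G → ZMod p) = dl p G (g i) f := rfl

include hg in
theorem T_ker {k : ℕ} {f : P p G (k + 1)} (h : T p G g k f = 0) : ∃ c, (f : G → ZMod p) = fun _ => c := by
  have h1 : (f : G → ZMod p) ∈ P p G 1 := by
    refine mem_P_gen p G g hg (P_LC p G f.2) ?_
    intro i
    rw [← T_apply, h]
    exact zero_mem _
  exact (P_one_iff p G).1 h1

variable [Fact p.Prime]

include hg in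
theorem P_finite (k : ℕ) : Module.Finite (ZMod p) (P p G k) := by
  induction k with
  | zero => 
    show Module.Finite (ZMod p) (⊥ : Submodule (ZMod p) (G → ZMod p))
    infer_instance
  | succ k ih =>
    let φ : P p G (k + 1) →ₗ[ZMod p] (Fin d → P p G k) × ZMod p :=
      (T p G g k).prod ((LinearMap.proj (1 : G)) ∘ₗ (P p G (k + 1)).subtype)
    refine Module.Finite.of_injective φ ?_
    rw [← LinearMap.ker_eq_bot, LinearMap.ker_eq_bot']
    intro f hf
    have h1 : T p G g k f = 0 := congrArg Prod.fst hf
    have h2 : (f : G → ZMod p) 1 = 0 := congrArg Prod.snd hf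
    obtain ⟨c, hc⟩ := T_ker p G g hg h1
    ext x
    rw [hc] at h2 ⊢
    simpa using h2

end gen

end Pool.Agent.Q229.GS
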