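import Pool.Agent.Q229.GS.B

set_option autoImplicit false
set_option linter.all false

/-! The Golod-Shafarevich recursion for the dimensions of the spaces of polynomial functions. -/

namespace Pool.Agent.Q229.GS

variable (p : ℕ) (G : Type) [Group G] [TopologicalSpace G]
variable [IsTopologicalGroup G] [CompactSpace G] [Fact p.Prime]
variable {d : ℕ} (g : Fin d → G)
  (hg : Dense ((Subgroup.closure (Set.range g) : Subgroup G) : Set G))
  (χ : Fin d → G → ZMod p) (hχ1 : ∀ i, χ i ∈ H1 p G) (hχ2 : ∀ i j, χ i (g j) = if i = j then 1 else 0)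
  (m : ℕ)

/-- right translation on `P k` -/
def rtP (k : ℕ) (h : G) : P p G k →ₗ[ZMod p] P p G k :=
  (rt p G h).restrict (p := P p G k) (q := P p G k) (fun f hf => rt_P p G h hf)

/-- right translation on tuples -/
def rtV (d k : ℕ) (h : G) : (Fin d → P p G k) →ₗ[ZMod p] (Fin d → P p G k) :=
  LinearMap.pi fun i => (rtP p G k h) ∘ₗ (LinearMap.proj i)

theorem rtV_apply (d k : ℕ) (h : G) (v : Fin d → P p G k) (i : Fin d) :
    ((rtV p G d k h v i : P p G k) : G → ZMod p) = rt p G h (v i) := rfl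

theorem rtV_mul (d k : ℕ) (a b : G) (v : Fin d → P p G k) :
    rtV p G d k (a * b) v = rtV p G d k a (rtV p G d k b v) := by
  funext i
  apply Subtype.ext
  rw [rtV_apply, rtV_apply, rtV_apply, rt_mul]

theorem rtV_one (d k : ℕ) (v : Fin d → P p G k) : rtV p G d k 1 v = v := by
  funext i
  apply Subtype.ext
  rw [rtV_apply]
  funext x; simp

/-- common period of a tuple -/
theorem exists_perV (d k : ℕ) (v : Fin d → P p G k) : ∃ N : Subgroup G, IsOpen (N : Set G) ∧
    ∀ n ∈ N, rtV p G d k n v = v := by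
  refine ⟨⨅ i, per p G (v i), ?_, ?_⟩
  · rw [Subgroup.coe_iInf]
    exact isOpen_iInter_of_finite (fun i => per_open p G (P_LC p G (v i).2))
  · intro n hn
    rw [Subgroup.mem_iInf] at hn
    funext i
    apply Subtype.ext
    rw [rtV_apply]
    exact rt_per p G (hn i)

/-- normalised functions -/
def P0 (k : ℕ) : Submodule (ZMod p) (P p G k) :=
  LinearMap.ker ((LinearMap.proj (1 : G) : (G → ZMod p) →ₗ[ZMod p] ZMod p) ∘ₗ (P p G k).subtype)

theorem mem_P0 {k : ℕ} {f : P p G k} : f ∈ P0 p G k ↔ (f : G → ZMod p) 1 = 0 := by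
  simp [P0]

/-- constants -/
def cst (k : ℕ) (c : ZMod p) : P p G (k + 1) :=
  ⟨fun _ => c, P_mono p G (Nat.succ_le_succ (Nat.zero_le k)) ((P_one_iff p G).2 ⟨c, rfl⟩)⟩

theorem T_cst (k : ℕ) (c : ZMod p) : T p G g k (cst p G k c) = 0 := by
  funext i
  apply Subtype.ext
  rw [T_apply]
  funext x
  simp [cst]

/-- `T` on normalised functions -/
def T0 (k : ℕ) : P0 p G (k + 1) →ₗ[ZMod p] (Fin d → P p G k) :=
  (T p G g k) ∘ₗ (P0 p G (k + 1)).subtype

theorem T0_range (k : ℕ) : LinearMap.range (T0 p G g k) = LinearMap.range (T p G g k) := by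
  apply le_antisymm
  · rintro _ ⟨u, rfl⟩
    exact ⟨u.1, rfl⟩
  · rintro _ ⟨u, rfl⟩
    refine ⟨⟨u - cst p G k ((u : G → ZMod p) 1), ?_⟩, ?_⟩
    · rw [mem_P0]
      simp [cst]
    · show T p G g k (u - cst p G k ((u : G → ZMod p) 1)) = _
      rw [map_sub, T_cst, sub_zero]

include hg in
theorem T0_ker (k : ℕ) : LinearMap.ker (T0 p G g k) = ⊥ := by
  rw [LinearMap.ker_eq_bot']
  intro u hu
  obtain ⟨c, hc⟩ := T_ker p G g hg (f := u.1) hu
  have h1 := (mem_P0 p G).1 u.2
  apply Subtype.ext
  apply Subtype.ext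
  funext x
  rw [hc] at h1 ⊢
  simpa using h1

/-- the tuples whose class is invariant under right translations -/
def W (k : ℕ) : Submodule (ZMod p) (Fin d → P p G k) :=
  ⨅ h : G, (LinearMap.range (T0 p G g k)).comap (rtV p G d k h - LinearMap.id)

theorem mem_W {k : ℕ} {v : Fin d → P p G k} :
    v ∈ W p G g k ↔ ∀ h, rtV p G d k h v - v ∈ LinearMap.range (T0 p G g k) := by
  simp [W]

variable (S : (Fin d → P p G m) →ₗ[ZMod p] P0 p G (m + 1))
  (hS : S ∘ₗ T0 p G g m = LinearMap.id)

/-- the cocycle attached to a tuple -/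
def Gam : (Fin d → P p G m) →ₗ[ZMod p] (G × G → ZMod p) where
  toFun v := fun q => ((S (rtV p G d m q.2 v - v) : P p G (m + 1)) : G → ZMod p) q.1
  map_add' v w := by
    funext q
    have : rtV p G d m q.2 (v + w) - (v + w) =
      (rtV p G d m q.2 v - v) + (rtV p G d m q.2 w - w) := by rw [map_add]; abel
    rw [this, map_add]; rfl
  map_smul' c v := by
    funext q
    have : rtV p G d m q.2 (c • v) - (c • v) = c • (rtV p G d m q.2 v - v) := by
      rw [map_smul, smul_sub]
    rw [this, map_smul]; rfl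

theorem Gam_apply (v : Fin d → P p G m) (x h : G) : Gam p G m S v (x, h) =
    ((S (rtV p G d m h v - v) : P p G (m + 1)) : G → ZMod p) x := rfl

include hS in
theorem S_spec {v : Fin d → P p G m} (hv : v ∈ LinearMap.range (T0 p G g m)) :
    T0 p G g m (S v) = v := by
  obtain ⟨u, rfl⟩ := hv
  have := LinearMap.congr_fun hS u
  simp only [LinearMap.comp_apply, LinearMap.id_apply] at this
  rw [this]

include hS in
theorem Gam_diff {v : Fin d → P p G m} (hv : v ∈ W p G g m) (i : Fin d) (x h : G) :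
    Gam p G m S v (g i * x, h) - Gam p G m S v (x, h) =
      (v i : G → ZMod p) (x * h) - (v i : G → ZMod p) x := by
  have h1 := S_spec p G g m S hS ((mem_W p G g).1 hv h)
  have h2 := congrFun h1 i
  have h3 := congrArg (fun z : P p G m => (z : G → ZMod p) x) h2
  rw [Gam_apply, Gam_apply]
  exact h3

theorem Gam_one (v : Fin d → P p G m) (h : G) : Gam p G m S v (1, h) = 0 := by
  rw [Gam_apply]
  exact (mem_P0 p G).1 (S (rtV p G d m h v - v)).2

theorem Gam_LC (v : Fin d → P p G m) : IsLocallyConstant (Gam p G m S v) := by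
  obtain ⟨N, hN, hN'⟩ := exists_perV p G d m v
  rw [IsLocallyConstant.iff_exists_open]
  rintro ⟨x, h⟩
  have h1 : IsLocallyConstant ((S (rtV p G d m h v - v) : P p G (m + 1)) : G → ZMod p) :=
    P_LC p G (S (rtV p G d m h v - v) : P p G (m + 1)).2
  obtain ⟨U, hU, hxU, hU'⟩ := (IsLocallyConstant.iff_exists_open _).1 h1 x
  refine ⟨U ×ˢ ((fun y => h⁻¹ * y) ⁻¹' (N : Set G)), hU.prod
    (hN.preimage (continuous_const.mul continuous_id)), ⟨hxU, ?_⟩, ?_⟩
  · show h⁻¹ * h ∈ N
    simp
  · rintro ⟨x', h'⟩ ⟨hx', hh'⟩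
    have h2 : rtV p G d m h' v = rtV p G d m h v := by
      have := hN' (h⁻¹ * h') hh'
      calc rtV p G d m h' v = rtV p G d m (h * (h⁻¹ * h')) v := by rw [mul_inv_cancel_left]
        _ = rtV p G d m h v := by rw [rtV_mul, this]
    rw [Gam_apply, Gam_apply, h2]
    exact hU' x' hx'

include hg in
/-- a function all of whose left differences along the generators vanish is constant, for locally constant functions -/
theorem const_of_diff {f : G → ZMod p} (hf : f ∈ LC p G) (h : ∀ i x, f (g i * x) = f x) (x : G) : f x = f 1 := by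
  have h1 : f ∈ P p G 1 := by
    refine mem_P_gen p G g hg hf ?_
    intro i
    rw [mem_P_zero]
    funext x
    simp [h i x]
  obtain ⟨c, rfl⟩ := (P_one_iff p G).1 h1
  rfl

theorem slice_LC {c : G × G → ZMod p} (hc : IsLocallyConstant c) (h : G) :
    (fun x => c (x, h)) ∈ LC p G :=
  hc.comp_continuous (by fun_prop)

include hg hS in
theorem Gam_Z2 {v : Fin d → P p G m} (hv : v ∈ W p G g m) : Gam p G m S v ∈ Z2 p G := by
  refine ⟨Gam_LC p G m S v, ?_⟩
  intro y h h'
  -- the function `y ↦ c (y, h h') - c (y, h) - c (y h, h')` is constant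
  have hLC : (fun y => Gam p G m S v (y, h * h') - Gam p G m S v (y, h) - Gam p G m S v (y * h, h')) ∈ LC p G := by
    refine sub_mem (sub_mem (slice_LC p G (Gam_LC p G m S v) _) (slice_LC p G (Gam_LC p G m S v) _)) ?_
    exact (Gam_LC p G m S v).comp_continuous (by fun_prop)
  have key := const_of_diff p G g hg hLC (by
    intro i x
    have h1 := Gam_diff p G g m S hS hv i x (h * h')
    have h2 := Gam_diff p G g m S hS hv i x h
    have h3 := Gam_diff p G g m S hS hv i (x * h) h'
    simp only [mul_assoc] at *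
    linear_combination h1 - h2 - h3) y
  simp only [Gam_one, one_mul, zero_sub, sub_zero] at key
  linear_combination key

include hg hS hχ1 hχ2 in
/-- the class determines the tuple modulo the range -/
theorem mem_range_of_B2 {v : Fin d → P p G m} (hv : v ∈ W p G g m) (h : Gam p G m S v ∈ B2 p G) :
    v ∈ LinearMap.range (T0 p G g m) := by
  obtain ⟨b, hb, hb'⟩ := h
  rw [T0_range]
  -- `κ i`
  have hκ : ∀ i h x, (b (g i * x) - b x) + (v i : G → ZMod p) x =
      (b (g i * (x * h)) - b (x * h)) + (v i : G → ZMod p) (x * h) := by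
    intro i h x
    have h1 := Gam_diff p G g m S hS hv i x h
    rw [hb', hb'] at h1
    simp only [mul_assoc] at *
    linear_combination h1
  let κ : Fin d → ZMod p := fun i => (b (g i * 1) - b 1) + (v i : G → ZMod p) 1
  have hκ' : ∀ i x, (v i : G → ZMod p) x = κ i - (b (g i * x) - b x) := by
    intro i x
    have := hκ i x 1
    rw [one_mul] at this
    show _ = ((b (g i * 1) - b 1) + (v i : G → ZMod p) 1) - (b (g i * x) - b x)
    linear_combination -this
  let F : G → ZMod p := fun x => (∑ i, κ i * χ i x) - b x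
  have hFLC : F ∈ LC p G := by
    refine sub_mem ?_ hb
    have h0 : (fun x => ∑ i, κ i * χ i x) = ∑ i, κ i • χ i := by
      funext x; simp
    rw [h0]
    exact sum_mem (fun i _ => (LC p G).smul_mem _ (hχ1 i).1)
  have hF : ∀ i, dl p G (g i) F = (v i : G → ZMod p) := by
    intro i
    funext x
    rw [hκ' i x, dl_apply]
    show ((∑ j, κ j * χ j (g i * x)) - b (g i * x)) - ((∑ j, κ j * χ j x) - b x) = _
    have h1 : ∑ j, κ j * χ j (g i * x) = κ i + ∑ j, κ j * χ j x := by
      have h2 : ∀ j, κ j * χ j (g i * x) = (if j = i then κ j else 0) + κ j * χ j x := by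
        intro j
        rw [(hχ1 j).2, hχ2 j i]
        split_ifs <;> ring
      rw [Finset.sum_congr rfl (fun j _ => h2 j), Finset.sum_add_distrib]
      simp
    rw [h1]; ring
  have hFP : F ∈ P p G (m + 1) := mem_P_gen p G g hg hFLC (fun i => by rw [hF i]; exact (v i).2)
  refine ⟨⟨F, hFP⟩, ?_⟩
  funext i
  apply Subtype.ext
  rw [T_apply]
  exact hF i

include hg in
theorem range_le_W (k : ℕ) : LinearMap.range (T0 p G g k) ≤ W p G g k := by
  rw [T0_range]
  rintro _ ⟨u, rfl⟩
  rw [mem_W, T0_range]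
  intro h
  refine ⟨rtP p G (k + 1) h u - u, ?_⟩
  rw [map_sub]
  congr 1
  funext i
  apply Subtype.ext
  rw [T_apply, rtV_apply, T_apply]
  exact dl_rt p G (g i) h u

include hg hS in
theorem B2_of_mem_range {v : Fin d → P p G m} (hv : v ∈ LinearMap.range (T0 p G g m)) :
    Gam p G m S v ∈ B2 p G := by
  have hW := range_le_W p G g hg m hv
  obtain ⟨u, rfl⟩ := hv
  refine ⟨fun x => - (u.1 : G → ZMod p) x, (P_LC p G u.1.2).neg, ?_⟩
  intro x h
  have hLC : (fun y => Gam p G m S (T0 p G g m u) (y, h) - ((u.1 : G → ZMod p) (y * h) - (u.1 : G → ZMod p) y)) ∈ LC p G := by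
    refine sub_mem (slice_LC p G (Gam_LC p G m S _) _) (sub_mem (rt_LC p G h (P_LC p G u.1.2)) (P_LC p G u.1.2))
  have key := const_of_diff p G g hg hLC (by
    intro i x
    have h1 := Gam_diff p G g m S hS hW i x h
    have h2 : ∀ y, ((T0 p G g m u i : P p G m) : G → ZMod p) y =
      (u.1 : G → ZMod p) (g i * y) - (u.1 : G → ZMod p) y := fun y => rfl
    rw [h2, h2] at h1
    simp only [mul_assoc] at *
    linear_combination h1) x
  simp only [Gam_one, one_mul, (mem_P0 p G).1 u.2] at key
  linear_combination key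

end Pool.Agent.Q229.GS
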