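import Pool.Agent.Q229.GS.C

set_option autoImplicit false
set_option linter.all false

/-! The Golod-Shafarevich recursion, end. -/

namespace Pool.Agent.Q229.GS

variable (p : ℕ) (G : Type) [Group G] [TopologicalSpace G]
variable [IsTopologicalGroup G] [CompactSpace G] [Fact p.Prime]
variable {d : ℕ} (g : Fin d → G)
  (hg : Dense ((Subgroup.closure (Set.range g) : Subgroup G) : Set G))
  (χ : Fin d → G → ZMod p) (hχ1 : ∀ i, χ i ∈ H1 p G) (hχ2 : ∀ i j, χ i (g j) = if i = j then 1 else 0)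
  (m : ℕ)

include hg hχ1 hχ2 in
/-- a linear map to `F_p^r` which detects, among invariant classes, the zero class -/
theorem exists_ell (r : ℕ) (hr : Module.rank (ZMod p) (H2 p G) = r) :
    ∃ ℓ : (Fin d → P p G m) →ₗ[ZMod p] (Fin r → ZMod p),
      (∀ v ∈ LinearMap.range (T0 p G g m), ℓ v = 0) ∧
      (∀ v ∈ W p G g m, ℓ v = 0 → v ∈ LinearMap.range (T0 p G g m)) := by
  obtain ⟨S, hS⟩ := LinearMap.exists_leftInverse_of_injective (T0 p G g m) (T0_ker p G g hg m)
  let Γ : W p G g m →ₗ[ZMod p] Z2 p G :=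
    ((Gam p G m S) ∘ₗ (W p G g m).subtype).codRestrict (Z2 p G)
      (fun v => Gam_Z2 p G g hg m S hS v.2)
  let θ : W p G g m →ₗ[ZMod p] H2 p G := (Submodule.mkQ _) ∘ₗ Γ
  have hfin : Module.Finite (ZMod p) (H2 p G) := by
    rw [← Module.rank_lt_aleph0_iff, hr]
    exact Cardinal.natCast_lt_aleph0
  have hfr : Module.finrank (ZMod p) (H2 p G) = r := by
    unfold Module.finrank
    rw [hr]; simp
  let e : H2 p G ≃ₗ[ZMod p] (Fin r → ZMod p) := (Module.finBasisOfFinrankEq _ _ hfr).equivFun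
  obtain ⟨ℓ, hℓ⟩ := LinearMap.exists_extend (p := W p G g m) (e.toLinearMap ∘ₗ θ)
  have hℓ' : ∀ v (hv : v ∈ W p G g m), ℓ v = e (θ ⟨v, hv⟩) := fun v hv =>
    LinearMap.congr_fun hℓ ⟨v, hv⟩
  have hθ : ∀ v (hv : v ∈ W p G g m), θ ⟨v, hv⟩ = 0 ↔ Gam p G m S v ∈ B2 p G := by
    intro v hv
    show Submodule.Quotient.mk _ = (0 : H2 p G) ↔ _
    rw [Submodule.Quotient.mk_eq_zero]
    rfl
  refine ⟨ℓ, ?_, ?_⟩
  · intro v hv
    have hW := range_le_W p G g hg m hv
    rw [hℓ' v hW, (hθ v hW).2 (B2_of_mem_range p G g hg m S hS hv), map_zero]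
  · intro v hv h0
    rw [hℓ' v hv, e.map_eq_zero_iff, hθ v hv] at h0
    exact mem_range_of_B2 p G g hg χ hχ1 hχ2 m S hS hv h0

section Psi
variable {r : ℕ} (ℓ : (Fin d → P p G m) →ₗ[ZMod p] (Fin r → ZMod p))

/-- the embedding of the cokernel in functions -/
def Psi : (Fin d → P p G m) →ₗ[ZMod p] (Fin r → G → ZMod p) where
  toFun v := fun j h => ℓ (rtV p G d m h v) j
  map_add' v w := by funext j h; simp
  map_smul' c v := by funext j h; simp

theorem Psi_apply (v : Fin d → P p G m) (j : Fin r) (h : G) :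
    Psi p G m ℓ v j h = ℓ (rtV p G d m h v) j := rfl

theorem Psi_LC (v : Fin d → P p G m) (j : Fin r) : Psi p G m ℓ v j ∈ LC p G := by
  obtain ⟨N, hN, hN'⟩ := exists_perV p G d m v
  refine LC_of_inv G _ N hN ?_
  intro x n hn
  rw [Psi_apply, Psi_apply, rtV_mul, hN' n hn]

theorem Psi_dr (v : Fin d → P p G m) (j : Fin r) (a : G) :
    dr p G a (Psi p G m ℓ v j) = Psi p G m ℓ (rtV p G d m a v - v) j := by
  funext h
  rw [dr_apply, Psi_apply, Psi_apply, Psi_apply, rtV_mul, map_sub, map_sub]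
  rfl

theorem rtV_sub_mem {k : ℕ} {v : Fin d → P p G m} (hv : ∀ i, (v i : G → ZMod p) ∈ P p G (k + 1)) (a : G) :
    ∀ i, ((rtV p G d m a v - v) i : P p G m).1 ∈ P p G k := by
  intro i
  have := dr_P p G a (hv i)
  exact this

include hχ1 hχ2 in
theorem Psi_P' (ℓ : (Fin d → P p G (m + 1)) →ₗ[ZMod p] (Fin r → ZMod p))
    (h1 : ∀ v ∈ LinearMap.range (T0 p G g (m + 1)), ℓ v = 0) (k : ℕ) (v : Fin d → P p G (m + 1))
    (hv : ∀ i, (v i : G → ZMod p) ∈ P p G (k + 1)) (j : Fin r) : Psi p G (m + 1) ℓ v j ∈ P' p G k := by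
  induction k generalizing v with
  | zero =>
    rw [mem_P'_zero]
    funext h
    rw [Psi_apply]
    have hc : ∀ i, ∃ c, (v i : G → ZMod p) = fun _ => c := fun i => (P_one_iff p G).1 (hv i)
    choose c hc using hc
    have hrt : rtV p G d (m + 1) h v = v := by
      funext i
      apply Subtype.ext
      rw [rtV_apply, hc i]
      rfl
    have hmem : v ∈ LinearMap.range (T0 p G g (m + 1)) := by
      rw [T0_range]
      let F : G → ZMod p := ∑ i, c i • χ i
      have hFLC : F ∈ LC p G := sum_mem (fun i _ => (LC p G).smul_mem _ (hχ1 i).1)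
      have hdl : ∀ x y, F (x * y) = F x + F y := by
        intro x y
        show (∑ i, c i • χ i) (x * y) = (∑ i, c i • χ i) x + (∑ i, c i • χ i) y
        simp only [Finset.sum_apply, Pi.smul_apply, smul_eq_mul]
        rw [← Finset.sum_add_distrib]
        refine Finset.sum_congr rfl (fun i _ => ?_)
        rw [(hχ1 i).2]; ring
      have hF2 : F ∈ P p G 2 := by
        rw [mem_P_succ]
        refine ⟨hFLC, fun a => ?_⟩
        rw [P_one_iff]
        refine ⟨F a, ?_⟩
        funext x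
        rw [dl_apply, hdl]; ring
      have hFm : F ∈ P p G (m + 2) := P_mono p G (by omega) hF2
      refine ⟨⟨F, hFm⟩, ?_⟩
      funext i
      apply Subtype.ext
      rw [T_apply, hc i]
      funext x
      rw [dl_apply]
      show F (g i * x) - F x = c i
      rw [hdl, add_sub_cancel_right]
      show (∑ j, c j • χ j) (g i) = c i
      simp only [Finset.sum_apply, Pi.smul_apply, smul_eq_mul, hχ2]
      simp
    rw [hrt, h1 v hmem]
    rfl
  | succ k ih =>
    rw [mem_P'_succ]
    refine ⟨Psi_LC p G (m + 1) ℓ v j, fun a => ?_⟩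
    rw [Psi_dr]
    exact ih _ (rtV_sub_mem p G (m + 1) hv a)

theorem Psi_ker (hℓ : ∀ v ∈ W p G g m, ℓ v = 0 → v ∈ LinearMap.range (T0 p G g m)) (k : ℕ)
    (v : Fin d → P p G m) (hv : ∀ i, (v i : G → ZMod p) ∈ P p G k) (h0 : Psi p G m ℓ v = 0) :
    v ∈ LinearMap.range (T0 p G g m) := by
  induction k generalizing v with
  | zero =>
    have : v = 0 := by
      funext i
      apply Subtype.ext
      exact (mem_P_zero p G).1 (hv i)
    rw [this]; exact zero_mem _
  | succ k ih =>
    have hW : v ∈ W p G g m := by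
      rw [mem_W]
      intro a
      refine ih _ (rtV_sub_mem p G m hv a) ?_
      funext j
      rw [← Psi_dr, h0]
      funext h; simp
    refine hℓ v hW ?_
    funext j
    have := congrFun (congrFun h0 j) 1
    rw [Psi_apply, rtV_one] at this
    exact this

end Psi

include hg hχ1 hχ2 in
/-- the Golod-Shafarevich recursion -/
theorem recursion (r : ℕ) (hr : Module.rank (ZMod p) (H2 p G) = r) :
    1 + d * Module.finrank (ZMod p) (P p G (m + 1)) ≤
      Module.finrank (ZMod p) (P p G (m + 2)) + r * Module.finrank (ZMod p) (P p G m) := by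
  obtain ⟨ℓ, hℓ1, hℓ2⟩ := exists_ell p G g hg χ hχ1 hχ2 (m + 1) r hr
  haveI hf := fun k => P_finite p G g hg k
  -- corestriction of `Psi`
  let Ψ : (Fin d → P p G (m + 1)) →ₗ[ZMod p] (Fin r → P p G m) :=
    LinearMap.pi fun j => ((LinearMap.proj j) ∘ₗ (Psi p G (m + 1) ℓ)).codRestrict (P p G m) (fun v =>
      P'_le_P p G m (Psi_P' p G g χ hχ1 hχ2 m ℓ hℓ1 m v (fun i => (v i).2) j))
  have hker : LinearMap.ker Ψ ≤ LinearMap.range (T p G g (m + 1)) := by
    intro v hv
    rw [← T0_range]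
    refine Psi_ker p G g (m + 1) ℓ hℓ2 (m + 1) v (fun i => (v i).2) ?_
    funext j
    have := congrFun (LinearMap.mem_ker.1 hv) j
    exact congrArg Subtype.val this
  have h1 := LinearMap.finrank_range_add_finrank_ker Ψ
  have h2 : Module.finrank (ZMod p) (LinearMap.range Ψ) ≤ r * Module.finrank (ZMod p) (P p G m) := by
    refine (Submodule.finrank_le _).trans ?_
    rw [Module.finrank_pi_fintype]
    simp
  have h3 : Module.finrank (ZMod p) (LinearMap.ker Ψ) ≤ Module.finrank (ZMod p) (LinearMap.range (T p G g (m + 1))) :=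
    Submodule.finrank_mono hker
  have h4 := LinearMap.finrank_range_add_finrank_ker (T p G g (m + 1))
  have h5 : 1 ≤ Module.finrank (ZMod p) (LinearMap.ker (T p G g (m + 1))) := by
    rw [Nat.one_le_iff_ne_zero]
    intro h0
    rw [Submodule.finrank_eq_zero, LinearMap.ker_eq_bot'] at h0
    have := h0 (cst p G (m + 1) 1) (T_cst p G g (m + 1) 1)
    have h6 := congrFun (congrArg Subtype.val this) 1
    exact one_ne_zero h6
  have h7 : Module.finrank (ZMod p) (Fin d → P p G (m + 1)) = d * Module.finrank (ZMod p) (P p G (m + 1)) := by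
    rw [Module.finrank_pi_fintype]
    simp
  rw [h7] at h1
  have h8 : Module.finrank (ZMod p) (LinearMap.range (T p G g (m + 1))) +
      Module.finrank (ZMod p) (LinearMap.ker (T p G g (m + 1))) = Module.finrank (ZMod p) (P p G (m + 2)) := h4
  omega

end Pool.Agent.Q229.GS
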