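import Pool.Agent.Q229.GS.D
import Pool.Agent.H127R3.FPlimit

set_option autoImplicit false
set_option linter.all false

/-! Polynomial functions and normal words. -/

namespace Pool.Agent.Q229.GS

open FPA FPD FPW FPG

section
variable (p : ℕ) (G : Type) [Group G] (N : Subgroup G) [N.Normal]

/-- the functional attached to a function -/
noncomputable def ph : (G → ZMod p) →ₗ[ZMod p] (MonoidAlgebra (ZMod p) (G ⧸ N) →ₗ[ZMod p] ZMod p) where
  toFun f := (MonoidAlgebra.basis (G ⧸ N) (ZMod p)).constr (ZMod p) (fun q => f q.out)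
  map_add' f f' := by
    apply (MonoidAlgebra.basis (G ⧸ N) (ZMod p)).ext
    intro q
    simp only [Module.Basis.constr_basis, LinearMap.add_apply, Pi.add_apply]
  map_smul' c f := by
    apply (MonoidAlgebra.basis (G ⧸ N) (ZMod p)).ext
    intro q
    simp only [Module.Basis.constr_basis, LinearMap.smul_apply, Pi.smul_apply, RingHom.id_apply]

theorem ph_of (f : G → ZMod p) (q : G ⧸ N) : ph p G N f (MonoidAlgebra.of (ZMod p) (G ⧸ N) q) = f q.out := by
  have h : MonoidAlgebra.of (ZMod p) (G ⧸ N) q = MonoidAlgebra.basis (G ⧸ N) (ZMod p) q := by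
    rw [MonoidAlgebra.basis_apply]; rfl
  rw [h]
  simp only [ph, LinearMap.coe_mk, AddHom.coe_mk, Module.Basis.constr_basis]

theorem ph_mul {f : G → ZMod p} (hf : ∀ x, ∀ n ∈ N, f (x * n) = f x) (q : G ⧸ N)
    (y : MonoidAlgebra (ZMod p) (G ⧸ N)) :
    ph p G N f ((MonoidAlgebra.of (ZMod p) (G ⧸ N) q - 1) * y) = ph p G N (dl p G q.out f) y := by
  have key : (ph p G N f) ∘ₗ (LinearMap.mulLeft (ZMod p) (MonoidAlgebra.of (ZMod p) (G ⧸ N) q - 1)) =
      ph p G N (dl p G q.out f) := by
    apply (MonoidAlgebra.basis (G ⧸ N) (ZMod p)).ext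
    intro q'
    have h : MonoidAlgebra.basis (G ⧸ N) (ZMod p) q' = MonoidAlgebra.of (ZMod p) (G ⧸ N) q' := by
      rw [MonoidAlgebra.basis_apply]; rfl
    rw [h, LinearMap.comp_apply, LinearMap.mulLeft_apply, sub_mul, one_mul, ← map_mul, map_sub,
      ph_of, ph_of, ph_of, dl_apply]
    congr 1
    have h2 : (QuotientGroup.mk (q.out * q'.out) : G ⧸ N) = QuotientGroup.mk ((q * q').out) := by
      rw [QuotientGroup.mk_mul]
      simp
    have h3 := hf (q.out * q'.out) _ (QuotientGroup.eq.1 h2)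
    rw [mul_inv_cancel_left] at h3
    exact h3
  exact LinearMap.congr_fun key y

variable [TopologicalSpace G] [IsTopologicalGroup G]

theorem ph_kill (n : ℕ) {f : G → ZMod p} (hf : ∀ x, ∀ n ∈ N, f (x * n) = f x) (hP : f ∈ P p G n)
    {a : MonoidAlgebra (ZMod p) (G ⧸ N)} (ha : a ∈
      (Submodule.span (ZMod p) (Set.range (fun g : G ⧸ N => MonoidAlgebra.of (ZMod p) (G ⧸ N) g - 1))) ^ n) :
    ph p G N f a = 0 := by
  induction n generalizing f a with
  | zero =>
    rw [mem_P_zero] at hP
    rw [hP, map_zero]; rfl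
  | succ n ih =>
    rw [pow_succ'] at ha
    refine Submodule.mul_induction_on ha ?_ ?_
    · intro x hx y hy
      refine Submodule.span_induction (p := fun x _ => ph p G N f (x * y) = 0) ?_ ?_ ?_ ?_ hx
      · rintro _ ⟨q, rfl⟩
        show ph p G N f ((MonoidAlgebra.of (ZMod p) (G ⧸ N) q - 1) * y) = 0
        rw [ph_mul p G N hf]
        refine ih ?_ (((mem_P_succ p G).1 hP).2 q.out) hy
        intro x m hm
        rw [dl_apply, dl_apply, ← mul_assoc, hf _ m hm, hf _ m hm]
      · simp
      · intro a b _ _ h1 h2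
        rw [add_mul, map_add, h1, h2, add_zero]
      · intro c a _ h1
        rw [smul_mul_assoc, map_smul, h1, smul_zero]
    · intro x y h1 h2
      rw [map_add, h1, h2, add_zero]

end

variable (p : ℕ) [Fact p.Prime] (G : Type) [Group G] [TopologicalSpace G] [IsTopologicalGroup G]
  [CompactSpace G] {d : ℕ} (g : Fin d → G)
  (hg : Dense ((Subgroup.closure (Set.range g) : Subgroup G) : Set G))

include hg in
/-- a common open normal period of all functions in `P n` -/
theorem exists_perP (n : ℕ) : ∃ N : Subgroup G, N.Normal ∧ IsOpen (N : Set G) ∧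
    ∀ f ∈ P p G n, ∀ x, ∀ m ∈ N, f (x * m) = f x := by
  haveI := P_finite p G g hg n
  let b := Module.finBasis (ZMod p) (P p G n)
  refine ⟨⨅ i, per p G (b i), Subgroup.normal_iInf_normal (fun i => per_normal p G _), ?_, ?_⟩
  · rw [Subgroup.coe_iInf]
    exact isOpen_iInter_of_finite (fun i => per_open p G (P_LC p G (b i).2))
  · intro f hf x m hm
    rw [Subgroup.mem_iInf] at hm
    have h1 := b.sum_repr ⟨f, hf⟩
    have h2 : f = ∑ i, (b.repr ⟨f, hf⟩ i) • ((b i : P p G n) : G → ZMod p) := by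
      have h3 := congrArg (P p G n).subtype h1
      rw [map_sum] at h3
      exact h3.symm
    rw [h2]
    simp only [Finset.sum_apply, Pi.smul_apply]
    refine Finset.sum_congr rfl (fun i _ => ?_)
    have := congrFun (rt_per p G (hm i)) x
    simp only [rt_apply] at this
    rw [this]

include hg in
theorem finrank_P_le (n : ℕ) (N : Subgroup G) [hN : N.Normal] (ho : IsOpen (N : Set G))
    (h : ∀ f ∈ P p G n, ∀ x, ∀ m ∈ N, f (x * m) = f x) :
    Module.finrank (ZMod p) (P p G n) ≤
      Module.finrank (ZMod p) (MonoidAlgebra (ZMod p) (G ⧸ N) ⧸ Jm p (G ⧸ N) n) := by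
  haveI : Finite (G ⧸ N) := Subgroup.quotient_finite_of_isOpen N ho
  have hfin : Module.Finite (ZMod p) (MonoidAlgebra (ZMod p) (G ⧸ N)) := inferInstance
  haveI := P_finite p G g hg n
  rcases Nat.eq_zero_or_pos n with rfl | hn
  · have : Module.finrank (ZMod p) (P p G 0) = 0 := by
      show Module.finrank (ZMod p) (⊥ : Submodule (ZMod p) (G → ZMod p)) = 0
      exact finrank_bot _ _
    rw [this]; exact Nat.zero_le _
  · let J := Jm p (G ⧸ N) n
    let φ : P p G n →ₗ[ZMod p] J.dualAnnihilator :=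
      ((ph p G N) ∘ₗ (P p G n).subtype).codRestrict J.dualAnnihilator (fun f => by
        rw [Submodule.mem_dualAnnihilator]
        intro a ha
        change a ∈ Jm p (G ⧸ N) n at ha
        rw [jm_eq p (G ⧸ N) n hn] at ha
        exact ph_kill p G N n (h f f.2) f.2 ha)
    have hinj : Function.Injective φ := by
      rw [← LinearMap.ker_eq_bot, LinearMap.ker_eq_bot']
      intro f hf
      have h1 : ph p G N f = 0 := congrArg Subtype.val hf
      apply Subtype.ext
      funext x
      have h2 := LinearMap.congr_fun h1 (MonoidAlgebra.of (ZMod p) (G ⧸ N) (QuotientGroup.mk x))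
      rw [ph_of] at h2
      have h3 : (QuotientGroup.mk x : G ⧸ N) = QuotientGroup.mk ((QuotientGroup.mk x : G ⧸ N).out) := by
        simp
      have h4 := h f f.2 x _ (QuotientGroup.eq.1 h3)
      rw [mul_inv_cancel_left] at h4
      rw [← h4, h2]
      rfl
    have h5 := LinearMap.finrank_le_finrank_of_injective hinj
    have h6 : Module.finrank (ZMod p) J.dualAnnihilator =
        Module.finrank (ZMod p) (MonoidAlgebra (ZMod p) (G ⧸ N) ⧸ J) := by
      rw [← (Submodule.dualQuotEquivDualAnnihilator J).finrank_eq]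
      exact Subspace.dual_finrank_eq
    rw [h6] at h5
    exact h5

include hg in
theorem finrank_Jm_le (N : Subgroup G) [hN : N.Normal] (ho : IsOpen (N : Set G)) (n : ℕ) :
    Module.finrank (ZMod p) (MonoidAlgebra (ZMod p) (G ⧸ N) ⧸ Jm p (G ⧸ N) n) ≤
      ∑ k ∈ Finset.range n, an' (Ng p G g) k := by
  haveI : Finite (G ⧸ N) := Subgroup.quotient_finite_of_isOpen N ho
  have hfin : Module.Finite (ZMod p) (MonoidAlgebra (ZMod p) (G ⧸ N)) := inferInstance
  induction n with
  | zero =>
    have h0 : Jm p (G ⧸ N) 0 = ⊤ := (flt_mon p (G ⧸ N)).top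
    rw [h0]
    haveI : Subsingleton (MonoidAlgebra (ZMod p) (G ⧸ N) ⧸ (⊤ : Submodule (ZMod p) (MonoidAlgebra (ZMod p) (G ⧸ N)))) :=
      Submodule.Quotient.subsingleton_iff.2 rfl
    rw [Module.finrank_zero_of_subsingleton]
    exact Nat.zero_le _
  | succ n ih =>
    have hgen := gen_mon p (G ⧸ N) (fun i => (QuotientGroup.mk (g i) : G ⧸ N)) (gen_quot G g hg N ho)
    have h4 := normal_count (flt_mon p (G ⧸ N)) _ hgen n inferInstance
    have h5 : Set.ncard {w : List (Fin d) | w.length = n ∧
        xw (MonoidAlgebra.of (ZMod p) (G ⧸ N)) (fun i => (QuotientGroup.mk (g i) : G ⧸ N)) w ∉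
        TT (MonoidAlgebra.of (ZMod p) (G ⧸ N))
          (fun n => Jm p (G ⧸ N) n) (fun i => (QuotientGroup.mk (g i) : G ⧸ N)) w} ≤
        an' (Ng p G g) n := by
      unfold an'
      apply Set.ncard_le_ncard
      · rintro w ⟨hw1, hw2⟩
        exact ⟨⟨N, hN, ho, hw2⟩, hw1⟩
      · exact (List.finite_length_eq (Fin d) n).subset (fun w hw => hw.2)
    rw [Finset.sum_range_succ]
    exact h4.trans (Nat.add_le_add ih h5)

include hg in
theorem finrank_P_le_sum (n : ℕ) : Module.finrank (ZMod p) (P p G n) ≤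
    ∑ k ∈ Finset.range n, an' (Ng p G g) k := by
  obtain ⟨N, hN, ho, h⟩ := exists_perP p G g hg n
  exact (finrank_P_le p G g hg n N ho h).trans (finrank_Jm_le p G g hg N ho n)

end Pool.Agent.Q229.GS
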