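import Mathlib

set_option autoImplicit false
set_option linter.all false

/-! Growth of submultiplicative sequences. -/

namespace Pool.Agent.Q229.GS

theorem submul_bound (b : ℕ → ℕ) (hb : ∀ m n, b (m + n) ≤ b m * b n) (m : ℕ) (hm : 1 ≤ m) (B : ℕ)
    (hB : ∀ t < m, b t ≤ B) (q t : ℕ) (ht : t < m) : b (q * m + t) ≤ (b m) ^ q * B := by
  induction q with
  | zero => simpa using hB t ht
  | succ q ih =>
    have h1 : (q + 1) * m + t = m + (q * m + t) := by ring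
    rw [h1, pow_succ']
    calc b (m + (q * m + t)) ≤ b m * b (q * m + t) := hb _ _
      _ ≤ b m * ((b m) ^ q * B) := Nat.mul_le_mul_left _ ih
      _ = b m * (b m) ^ q * B := by ring

theorem sum_bound (b : ℕ → ℕ) (hb : ∀ m n, b (m + n) ≤ b m * b n) (m : ℕ) (hm : 1 ≤ m) (B : ℕ)
    (hB : ∀ t < m, b t ≤ B) (β : ℕ) (hβ : b m ≤ β) (hβ1 : 1 ≤ β) (Q : ℕ) :
    ∑ k ∈ Finset.range (Q * m), b k ≤ Q * (m * B * β ^ Q) := by
  induction Q with
  | zero => simp
  | succ Q ih =>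
    rw [Nat.succ_mul, Finset.sum_range_add]
    have h1 : ∑ x ∈ Finset.range m, b (Q * m + x) ≤ m * B * β ^ Q := by
      calc ∑ x ∈ Finset.range m, b (Q * m + x) ≤ ∑ x ∈ Finset.range m, β ^ Q * B := by
            refine Finset.sum_le_sum (fun x hx => ?_)
            refine (submul_bound b hb m hm B hB Q x (Finset.mem_range.1 hx)).trans ?_
            exact Nat.mul_le_mul_right _ (Nat.pow_le_pow_left hβ Q)
        _ = m * B * β ^ Q := by rw [Finset.sum_const, Finset.card_range, smul_eq_mul]; ring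
    have h2 : β ^ Q ≤ β ^ (Q + 1) := Nat.pow_le_pow_right hβ1 (Nat.le_succ Q)
    calc ∑ x ∈ Finset.range (Q * m), b x + ∑ x ∈ Finset.range m, b (Q * m + x)
        ≤ Q * (m * B * β ^ Q) + m * B * β ^ Q := Nat.add_le_add ih h1
      _ = (Q + 1) * (m * B * β ^ Q) := by ring
      _ ≤ (Q + 1) * (m * B * β ^ (Q + 1)) := by
          exact Nat.mul_le_mul_left _ (Nat.mul_le_mul_left _ h2)

/-- a submultiplicative sequence whose partial sums grow like `s ^ n` is at least `s ^ n` -/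
theorem growth (b : ℕ → ℕ) (hb : ∀ m n, b (m + n) ≤ b m * b n) (s : ℝ) (hs : 1 < s)
    (h : ∀ n : ℕ, s ^ n ≤ ((∑ k ∈ Finset.range (n + 1), b k : ℕ) : ℝ)) (m : ℕ) (hm : 1 ≤ m) :
    s ^ m ≤ (b m : ℝ) := by
  by_contra hcon
  push Not at hcon
  -- `β`
  have hsm : 1 < s ^ m := one_lt_pow₀ hs (by omega)
  obtain ⟨β, hβ, hβ1, hβs⟩ : ∃ β : ℕ, b m ≤ β ∧ 1 ≤ β ∧ (β : ℝ) < s ^ m := by
    refine ⟨max (b m) 1, le_max_left _ _, le_max_right _ _, ?_⟩
    rw [Nat.cast_max, max_lt_iff]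
    exact ⟨hcon, by simpa using hsm⟩
  obtain ⟨B, hB⟩ : ∃ B : ℕ, ∀ t < m, b t ≤ B :=
    ⟨∑ t ∈ Finset.range m, b t, fun t ht => Finset.single_le_sum (f := b) (fun _ _ => Nat.zero_le _)
      (Finset.mem_range.2 ht)⟩
  have hβpos : (0 : ℝ) < β := by exact_mod_cast hβ1
  -- ratio
  set ρ : ℝ := s ^ m / β with hρ
  have hρ1 : 1 < ρ := by rw [hρ, one_lt_div hβpos]; exact hβs
  have hkey : ∀ Q : ℕ, 1 ≤ Q → ρ ^ Q ≤ s * (m * B) * Q := by
    intro Q hQ
    have h1 := h (Q * m - 1)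
    have hQm : 1 ≤ Q * m := Nat.mul_le_mul hQ hm
    rw [Nat.sub_add_cancel hQm] at h1
    have h2 : ((∑ k ∈ Finset.range (Q * m), b k : ℕ) : ℝ) ≤ ((Q * (m * B * β ^ Q) : ℕ) : ℝ) := by
      exact_mod_cast sum_bound b hb m hm B hB β hβ hβ1 Q
    have h3 := h1.trans h2
    have h4 : s ^ (Q * m) ≤ s * ((Q * (m * B * β ^ Q) : ℕ) : ℝ) := by
      have h5 : s ^ (Q * m) = s * s ^ (Q * m - 1) := by
        rw [← pow_succ', Nat.sub_add_cancel hQm]
      rw [h5]
      exact mul_le_mul_of_nonneg_left h3 (by linarith)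
    have h6 : ρ ^ Q = s ^ (Q * m) / (β : ℝ) ^ Q := by
      rw [hρ, div_pow, ← pow_mul, mul_comm m Q]
    rw [h6, div_le_iff₀ (by positivity)]
    refine h4.trans (le_of_eq ?_)
    push_cast
    ring
  -- contradiction: exponential beats linear
  have hlim := tendsto_pow_const_div_const_pow_of_one_lt 1 hρ1
  have hK : 0 < 1 / (s * (m * B) + 1) := by positivity
  obtain ⟨Q, hQ1, hQ2⟩ := ((hlim.eventually (gt_mem_nhds hK)).and (Filter.eventually_ge_atTop 1)).exists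
  have h7 := hkey Q hQ2
  have hρQ : 0 < ρ ^ Q := by positivity
  rw [pow_one, div_lt_div_iff₀ hρQ (by positivity)] at hQ1
  have hQpos : (0 : ℝ) < Q := by exact_mod_cast hQ2
  nlinarith

/-- the Golod-Shafarevich recursion forces exponential growth -/
theorem rec_growth (q : ℕ → ℕ) (d r : ℕ) (hd : 2 < d) (hr : 4 * r ≤ d ^ 2) (h0 : q 0 = 0) (h1 : 1 ≤ q 1)
    (hrec : ∀ m, 1 + d * q (m + 1) ≤ q (m + 2) + r * q m) (n : ℕ) :
    ((d : ℝ) / 2) ^ n ≤ (q (n + 1) : ℝ) := by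
  have hs : (1 : ℝ) < (d : ℝ) / 2 := by
    have : (2 : ℝ) < d := by exact_mod_cast hd
    linarith
  set s : ℝ := (d : ℝ) / 2 with hsdef
  have hd' : (d : ℝ) = 2 * s := by rw [hsdef]; ring
  have hr' : (r : ℝ) ≤ s ^ 2 := by
    have : (4 * r : ℝ) ≤ (d : ℝ) ^ 2 := by exact_mod_cast hr
    rw [hd'] at this
    nlinarith
  have key : ∀ m, s ^ m ≤ (q (m + 1) : ℝ) - s * q m := by
    intro m
    induction m with
    | zero =>
      rw [h0]
      have : (1 : ℝ) ≤ q 1 := by exact_mod_cast h1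
      simpa using this
    | succ m ih =>
      have h2 : (1 : ℝ) + d * q (m + 1) ≤ q (m + 2) + r * q m := by exact_mod_cast hrec m
      have h3 : (0 : ℝ) ≤ q m := Nat.cast_nonneg _
      have h4 : (r : ℝ) * q m ≤ s ^ 2 * q m := mul_le_mul_of_nonneg_right hr' h3
      have h5 : s * s ^ m ≤ s * ((q (m + 1) : ℝ) - s * q m) := mul_le_mul_of_nonneg_left ih (by linarith)
      rw [hd'] at h2
      rw [pow_succ']
      have e : (q (m + 1 + 1) : ℝ) = q (m + 2) := rfl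
      rw [e]
      nlinarith
  have h6 := key n
  have h7 : (0 : ℝ) ≤ s * q n := mul_nonneg (by linarith) (Nat.cast_nonneg _)
  linarith

end Pool.Agent.Q229.GS
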