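import Pool.Agent.Q229.GS.D

set_option autoImplicit false
set_option linter.all false

/-! Generators of a finitely generated pro-`p` group dual to a basis of the first cohomology. -/

namespace Pool.Agent.Q229.GS

/-- a nontrivial cyclic `p`-group maps onto `ZMod p` -/
theorem cyclic_hom (p : ℕ) [hp : Fact p.Prime] (C : Type) [Group C] [Finite C] (hC : IsPGroup p C)
    [hn : Nontrivial C] (hc : IsCyclic C) : ∃ ψ : C → ZMod p, (∀ x y, ψ (x * y) = ψ x + ψ y) ∧ ∃ c, ψ c ≠ 0 := by
  obtain ⟨k, hk⟩ := IsPGroup.iff_card.1 hC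
  have hdvd : p ∣ Nat.card C := by
    rw [hk]
    refine dvd_pow_self p ?_
    rintro rfl
    rw [pow_zero] at hk
    have := Finite.one_lt_card (α := C)
    omega
  let e := zmodCyclicMulEquiv hc
  refine ⟨fun c => ZMod.castHom hdvd (ZMod p) (Multiplicative.toAdd (e.symm c)), ?_, ?_⟩
  · intro x y
    simp only [map_mul, toAdd_mul, map_add]
  · refine ⟨e (Multiplicative.ofAdd 1), ?_⟩
    simp only [MulEquiv.symm_apply_apply, toAdd_ofAdd, map_one]
    exact one_ne_zero

/-- Frattini argument: a proper subgroup of a finite `p`-group is killed by a nonzero homomorphism to `ZMod p` -/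
theorem frattini (p : ℕ) [hp : Fact p.Prime] (Q : Type) [Group Q] [Finite Q] (hQ : IsPGroup p Q)
    (K : Subgroup Q) (hK : K ≠ ⊤) :
    ∃ ψ : Q → ZMod p, (∀ x y, ψ (x * y) = ψ x + ψ y) ∧ (∀ x ∈ K, ψ x = 0) ∧ ∃ c, ψ c ≠ 0 := by
  obtain h | ⟨M, hM, hKM⟩ := IsCoatomic.eq_top_or_exists_le_coatom K
  · exact absurd h hK
  · haveI := hQ.isNilpotent
    haveI hMn : M.Normal := Subgroup.NormalizerCondition.normal_of_coatom M
      (Group.normalizerCondition_of_isNilpotent) hM
    obtain ⟨x, hx⟩ : ∃ x, x ∉ M := by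
      by_contra hcon
      push Not at hcon
      exact hM.1 (eq_top_iff.2 (fun y _ => hcon y))
    have hsup : M ⊔ Subgroup.zpowers x = ⊤ := by
      refine hM.2 _ (lt_of_le_of_ne le_sup_left ?_)
      intro h
      apply hx
      rw [h]
      exact Subgroup.mem_sup_right (Subgroup.mem_zpowers x)
    have hcyc : IsCyclic (Q ⧸ M) := by
      refine ⟨⟨QuotientGroup.mk x, ?_⟩⟩
      intro q
      induction q using QuotientGroup.induction_on with
      | H y =>
        have hy : y ∈ M ⊔ Subgroup.zpowers x := by rw [hsup]; trivial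
        rw [Subgroup.mem_sup_of_normal_left] at hy
        obtain ⟨a, ha, b, hb, rfl⟩ := hy
        obtain ⟨n, rfl⟩ := Subgroup.mem_zpowers_iff.1 hb
        refine Subgroup.mem_zpowers_iff.2 ⟨n, ?_⟩
        rw [QuotientGroup.mk_mul, (QuotientGroup.eq_one_iff a).2 ha, one_mul]
        rfl
    haveI : Nontrivial (Q ⧸ M) := by
      refine ⟨⟨QuotientGroup.mk x, 1, ?_⟩⟩
      intro h
      exact hx ((QuotientGroup.eq_one_iff x).1 h)
    obtain ⟨ψ, h1, c, hc⟩ := cyclic_hom p (Q ⧸ M) (hQ.to_quotient M) hcyc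
    have hψ1 : ψ 1 = 0 := by
      have := h1 1 1
      rw [one_mul] at this
      simpa using this
    refine ⟨fun q => ψ (QuotientGroup.mk q), ?_, ?_, ?_⟩
    · intro a b
      show ψ (QuotientGroup.mk (a * b)) = ψ (QuotientGroup.mk a) + ψ (QuotientGroup.mk b)
      rw [QuotientGroup.mk_mul, h1]
    · intro a ha
      show ψ (QuotientGroup.mk a) = 0
      rw [(QuotientGroup.eq_one_iff a).2 (hKM ha), hψ1]
    · obtain ⟨b, rfl⟩ := QuotientGroup.mk_surjective c
      exact ⟨b, hc⟩

variable (p : ℕ) [Fact p.Prime] (G : Type) [Group G] [TopologicalSpace G] [IsTopologicalGroup G]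
  [CompactSpace G]

theorem H1_zero_of_dense {χ : G → ZMod p} (hχ : χ ∈ H1 p G) (s : Set G)
    (hs : Dense ((Subgroup.closure s : Subgroup G) : Set G)) (h : ∀ x ∈ s, χ x = 0) : χ = 0 := by
  have h1 : χ 1 = 0 := by
    have := hχ.2 1 1
    rw [one_mul] at this
    simpa using this
  have hinv : ∀ x, χ x⁻¹ = - χ x := by
    intro x
    have := hχ.2 x x⁻¹
    rw [mul_inv_cancel, h1] at this
    exact (neg_eq_of_add_eq_zero_right this.symm).symm
  let K : Subgroup G :=
    { carrier := {x | χ x = 0}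
      one_mem' := h1
      mul_mem' := by
        intro a b ha hb
        show χ (a * b) = 0
        rw [hχ.2, show χ a = 0 from ha, show χ b = 0 from hb, add_zero]
      inv_mem' := by
        intro a ha
        show χ a⁻¹ = 0
        rw [hinv, show χ a = 0 from ha, neg_zero] }
  have hle : Subgroup.closure s ≤ K := by
    rw [Subgroup.closure_le]
    exact fun x hx => h x hx
  have hcl : IsClosed (K : Set G) := hχ.1.isClosed_fiber 0
  funext x
  have h2 : x ∈ closure ((Subgroup.closure s : Subgroup G) : Set G) := hs x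
  exact (hcl.closure_subset_iff.2 (fun y hy => hle hy)) h2

variable [TotallyDisconnectedSpace G]

theorem exists_gen (hG : ∀ N : Subgroup G, IsOpen (N : Set G) → N.Normal → ∃ k : ℕ, N.index = p ^ k)
    (s : Finset G) (hs : Dense ((Subgroup.closure (s : Set G) : Subgroup G) : Set G)) (d : ℕ)
    (hd : Module.rank (ZMod p) (H1 p G) = d) :
    ∃ (g : Fin d → G) (χ : Fin d → G → ZMod p),
      Dense ((Subgroup.closure (Set.range g) : Subgroup G) : Set G) ∧ (∀ i, χ i ∈ H1 p G) ∧
      ∀ i j, χ i (g j) = if i = j then 1 else 0 := by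
  classical
  have hfin : Module.Finite (ZMod p) (H1 p G) := by
    rw [← Module.rank_lt_aleph0_iff, hd]
    exact Cardinal.natCast_lt_aleph0
  have hfr : Module.finrank (ZMod p) (H1 p G) = d := by
    unfold Module.finrank
    rw [hd]; simp
  -- evaluations
  let ev : G → Module.Dual (ZMod p) (H1 p G) := fun x =>
    (LinearMap.proj x : (G → ZMod p) →ₗ[ZMod p] ZMod p) ∘ₗ (H1 p G).subtype
  let v : s → Module.Dual (ZMod p) (H1 p G) := fun x => ev x.1
  have hspan : Submodule.span (ZMod p) (Set.range v) = ⊤ := by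
    have h1 : (Submodule.span (ZMod p) (Set.range v)).dualCoannihilator = ⊥ := by
      rw [eq_bot_iff]
      intro χ hχ
      rw [Submodule.mem_dualCoannihilator] at hχ
      rw [Submodule.mem_bot]
      apply Subtype.ext
      refine H1_zero_of_dense p G χ.2 s hs ?_
      intro x hx
      exact hχ (v ⟨x, hx⟩) (Submodule.subset_span ⟨⟨x, hx⟩, rfl⟩)
    have h2 := Subspace.dualCoannihilator_dualAnnihilator_eq
      (W := Submodule.span (ZMod p) (Set.range v))
    rw [h1, Submodule.dualAnnihilator_bot] at h2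
    exact h2.symm
  obtain ⟨κ, a, ha, hsp, hli⟩ := exists_linearIndependent' (ZMod p) v
  rw [hspan] at hsp
  let B0 : Module.Basis κ (ZMod p) (Module.Dual (ZMod p) (H1 p G)) := Module.Basis.mk hli (by rw [hsp])
  haveI : Finite κ := Finite.of_injective a ha
  haveI : Fintype κ := Fintype.ofFinite κ
  have hcard : Fintype.card κ = d := by
    rw [← hfr, ← Subspace.dual_finrank_eq, Module.finrank_eq_card_basis B0]
  let e : κ ≃ Fin d := Fintype.equivFinOfCardEq hcard
  let B : Module.Basis (Fin d) (ZMod p) (Module.Dual (ZMod p) (H1 p G)) := B0.reindex e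
  let g : Fin d → G := fun i => (a (e.symm i)).1
  have hB : ∀ i, B i = ev (g i) := by
    intro i
    rw [Module.Basis.reindex_apply, Module.Basis.mk_apply]
    rfl
  let χ : Fin d → H1 p G := fun i => (Module.evalEquiv (ZMod p) (H1 p G)).symm (B.coord i)
  have hχ : ∀ i (φ : Module.Dual (ZMod p) (H1 p G)), φ (χ i) = B.coord i φ := by
    intro i φ
    have : Module.evalEquiv (ZMod p) (H1 p G) (χ i) = B.coord i := LinearEquiv.apply_symm_apply _ _
    exact LinearMap.congr_fun this φ
  refine ⟨g, fun i => (χ i).1, ?_, fun i => (χ i).2, ?_⟩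
  · -- density
    have key : ∀ (U : Subgroup G) (hU : U.Normal), IsOpen (U : Set G) →
        Subgroup.closure (Set.range (fun i => (QuotientGroup.mk (g i) : G ⧸ U))) = ⊤ := by
      intro U hU hUo
      by_contra hcon
      haveI : Finite (G ⧸ U) := Subgroup.quotient_finite_of_isOpen U hUo
      obtain ⟨k, hk⟩ := hG U hUo hU
      have hp : IsPGroup p (G ⧸ U) := IsPGroup.of_card (n := k) (by rw [← hk]; rfl)
      obtain ⟨ψ, h1, h2, c, hc⟩ := frattini p (G ⧸ U) hp _ hcon
      let ξ : G → ZMod p := fun x => ψ (QuotientGroup.mk x)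
      have hξ : ξ ∈ H1 p G := by
        refine ⟨LC_of_inv G ξ U hUo ?_, ?_⟩
        · intro x n hn
          show ψ (QuotientGroup.mk (x * n)) = ψ (QuotientGroup.mk x)
          rw [QuotientGroup.mk_mul, (QuotientGroup.eq_one_iff n).2 hn, mul_one]
        · intro x y
          show ψ (QuotientGroup.mk (x * y)) = _
          rw [QuotientGroup.mk_mul, h1]
      have h3 : ∀ i, B i ⟨ξ, hξ⟩ = 0 := by
        intro i
        rw [hB]
        exact h2 _ (Subgroup.subset_closure ⟨i, rfl⟩)
      have h4 : (⟨ξ, hξ⟩ : H1 p G) = 0 := by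
        have h5 : Module.evalEquiv (ZMod p) (H1 p G) ⟨ξ, hξ⟩ = 0 := B.ext h3
        exact (Module.evalEquiv (ZMod p) (H1 p G)).map_eq_zero_iff.1 h5
      obtain ⟨b, rfl⟩ := QuotientGroup.mk_surjective c
      exact hc (congrFun (congrArg Subtype.val h4) b)
    rw [dense_iff_inter_open]
    rintro O hO ⟨x, hx⟩
    obtain ⟨U, hU⟩ := ProfiniteGrp.exist_openNormalSubgroup_sub_open_nhds_of_one
      (U := (fun y => x * y) ⁻¹' O) (hO.preimage (continuous_const.mul continuous_id))
      (by show x * 1 ∈ O; rwa [mul_one])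
    haveI hUn : (U : Subgroup G).Normal := inferInstance
    have h1 := key (U : Subgroup G) hUn U.isOpen'
    have h2 : (QuotientGroup.mk x : G ⧸ (U : Subgroup G)) ∈
        Subgroup.closure (Set.range (fun i => (QuotientGroup.mk (g i) : G ⧸ (U : Subgroup G)))) := by
      rw [h1]; trivial
    have hr : Set.range (fun i => (QuotientGroup.mk (g i) : G ⧸ (U : Subgroup G))) =
        (QuotientGroup.mk' (U : Subgroup G)) '' (Set.range g) := by
      rw [← Set.range_comp]
      rfl
    rw [hr, ← MonoidHom.map_closure] at h2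
    obtain ⟨y, hy, hyx⟩ := h2
    refine ⟨y, ?_, hy⟩
    have h3 : x⁻¹ * y ∈ (U : Subgroup G) := QuotientGroup.eq.1 hyx.symm
    have h4 := hU h3
    simpa using h4
  · intro i j
    have h1 := hχ i (ev (g j))
    rw [← hB j, Module.Basis.coord_apply, Module.Basis.repr_self] at h1
    have h2 : (B j) (χ i) = (χ i).1 (g j) := by rw [hB j]; rfl
    show (χ i).1 (g j) = _
    rw [← h2, h1, Finsupp.single_apply]
    by_cases hij : i = j
    · rw [if_pos hij, if_pos hij.symm]
    · rw [if_neg hij, if_neg (fun h => hij h.symm)]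

end Pool.Agent.Q229.GS
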